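import Mathlib
import Pool.Agent.E8helper64.AX.AX_C1

/-! # AX piece C2G: the solution from closed forms, all `M`. -/

set_option autoImplicit false

open Polynomial

namespace Pool.Agent.E8helper83.AX

/-! ## binomial identities -/

theorem ch_swap (n j t : ℕ) : n.choose j * (n - j).choose t = n.choose t * (n - t).choose j := by
  by_cases h : j + t ≤ n
  · have h1 := Nat.choose_mul (n := n) (k := j + t) (s := j) (by omega)
    have h2 := Nat.choose_mul (n := n) (k := j + t) (s := t) (by omega)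
    have e1 : j + t - j = t := by omega
    have e2 : j + t - t = j := by omega
    rw [e1] at h1
    rw [e2] at h2
    rw [← h1, ← h2]
    congr 1
    exact (Nat.choose_symm_add (a := j) (b := t))
  · have z1 : n.choose j * (n - j).choose t = 0 := by
      rcases Nat.lt_or_ge n j with h1 | h1
      · rw [Nat.choose_eq_zero_of_lt h1, zero_mul]
      · rw [Nat.choose_eq_zero_of_lt (show n - j < t by omega), mul_zero]
    have z2 : n.choose t * (n - t).choose j = 0 := by
      rcases Nat.lt_or_ge n t with h1 | h1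
      · rw [Nat.choose_eq_zero_of_lt h1, zero_mul]
      · rw [Nat.choose_eq_zero_of_lt (show n - t < j by omega), mul_zero]
    rw [z1, z2]

theorem natA (n i t : ℕ) : n.choose t * (n + i + 1 - t).choose i =
    ∑ j ∈ Finset.range (i + 1), (i + 1).choose (j + 1) * (n.choose j * (n - j).choose t) := by
  rcases Nat.lt_or_ge n t with h | h
  · rw [Nat.choose_eq_zero_of_lt h, zero_mul]
    symm
    refine Finset.sum_eq_zero fun j _ => ?_
    rw [Nat.choose_eq_zero_of_lt (show n - j < t by omega), mul_zero, mul_zero]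
  · have e : n + i + 1 - t = (n - t) + (i + 1) := by omega
    rw [e, Nat.add_choose_eq, Finset.Nat.sum_antidiagonal_eq_sum_range_succ
      (fun a b => (n - t).choose a * (i + 1).choose b), Finset.mul_sum]
    refine Finset.sum_congr rfl fun j hj => ?_
    have hj' : j ≤ i := by
      have := Finset.mem_range.1 hj
      omega
    have e2 : (i + 1).choose (i - j) = (i + 1).choose (j + 1) := by
      rw [← Nat.choose_symm (show j + 1 ≤ i + 1 by omega)]
      congr 1
      omega
    rw [e2, ch_swap n j t]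
    ring

theorem natB (n s i : ℕ) : n.choose i * (n + s - i).choose (s + 1) =
    ∑ j ∈ Finset.range (s + 1), s.choose j * (n.choose (j + 1) * (n - (j + 1)).choose i) := by
  rcases Nat.lt_or_ge n i with h | h
  · rw [Nat.choose_eq_zero_of_lt h, zero_mul]
    symm
    refine Finset.sum_eq_zero fun j _ => ?_
    rw [Nat.choose_eq_zero_of_lt (show n - (j + 1) < i by omega), mul_zero, mul_zero]
  · have e : n + s - i = (n - i) + s := by omega
    rw [e, Nat.add_choose_eq, Finset.Nat.sum_antidiagonal_eq_sum_range_succ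
      (fun a b => (n - i).choose a * s.choose b), Finset.sum_range_succ', Nat.sub_zero,
      Nat.choose_eq_zero_of_lt (show s < s + 1 by omega), mul_zero, add_zero, Finset.mul_sum]
    refine Finset.sum_congr rfl fun j hj => ?_
    have hj' : j ≤ s := by
      have := Finset.mem_range.1 hj
      omega
    have e2 : s.choose (s + 1 - (j + 1)) = s.choose j := by
      rw [← Nat.choose_symm hj']
      congr 1
      omega
    rw [e2, ch_swap n (j + 1) i]
    ring

section ring
variable {R : Type} [CommRing R]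

theorem bin (y : R) (n N : ℕ) (h : n < N) :
    ∑ t ∈ Finset.range N, ((n.choose t : ℕ) : R) * y ^ t = (1 + y) ^ n := by
  rw [add_comm, add_pow]
  have h2 : Finset.range (n + 1) ⊆ Finset.range N := by
    intro x hx
    have := Finset.mem_range.1 hx
    exact Finset.mem_range.2 (by omega)
  rw [← Finset.sum_subset h2]
  · refine Finset.sum_congr rfl fun t _ => ?_
    rw [one_pow]
    ring
  · intro t _ ht
    have : ¬ t < n + 1 := fun h => ht (Finset.mem_range.2 h)
    rw [Nat.choose_eq_zero_of_lt (show n < t by omega), Nat.cast_zero, zero_mul]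

theorem genA (y : R) (n i N : ℕ) (h : n < N) :
    ∑ t ∈ Finset.range N, ((n.choose t * (n + i + 1 - t).choose i : ℕ) : R) * y ^ t =
      ∑ j ∈ Finset.range (i + 1), (((i + 1).choose (j + 1) * n.choose j : ℕ) : R) * (1 + y) ^ (n - j) := by
  have e1 : ∀ t ∈ Finset.range N, ((n.choose t * (n + i + 1 - t).choose i : ℕ) : R) * y ^ t =
      ∑ j ∈ Finset.range (i + 1), (((i + 1).choose (j + 1) * n.choose j : ℕ) : R) *
        ((((n - j).choose t : ℕ) : R) * y ^ t) := by
    intro t _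
    rw [natA, Nat.cast_sum, Finset.sum_mul]
    refine Finset.sum_congr rfl fun j _ => ?_
    push_cast
    ring
  rw [Finset.sum_congr rfl e1, Finset.sum_comm]
  refine Finset.sum_congr rfl fun j _ => ?_
  rw [← Finset.mul_sum, bin y (n - j) N (by omega)]

theorem genB (y : R) (n s N : ℕ) (h : n < N) :
    ∑ i ∈ Finset.range N, ((n.choose i * (n + s - i).choose (s + 1) : ℕ) : R) * y ^ i =
      ∑ j ∈ Finset.range (s + 1), ((s.choose j * n.choose (j + 1) : ℕ) : R) *
        (1 + y) ^ (n - (j + 1)) := by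
  have e1 : ∀ i ∈ Finset.range N, ((n.choose i * (n + s - i).choose (s + 1) : ℕ) : R) * y ^ i =
      ∑ j ∈ Finset.range (s + 1), ((s.choose j * n.choose (j + 1) : ℕ) : R) *
        ((((n - (j + 1)).choose i : ℕ) : R) * y ^ i) := by
    intro t _
    rw [natB, Nat.cast_sum, Finset.sum_mul]
    refine Finset.sum_congr rfl fun j _ => ?_
    push_cast
    ring
  rw [Finset.sum_congr rfl e1, Finset.sum_comm]
  refine Finset.sum_congr rfl fun j _ => ?_
  rw [← Finset.mul_sum, bin y (n - (j + 1)) N (by omega)]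

end ring

/-! ## products -/

/-- Cauchy product -/
noncomputable def cp {R : Type} [Semiring R] (a b : ℕ → R) (n : ℕ) : R :=
  ∑ x ∈ Finset.HasAntidiagonal.antidiagonal n, a x.1 * b x.2

/-- the two structures, up to order `L` -/
structure Good (L m h k : ℕ) (a a' : ℕ → ℚ[X]) : Prop where
  rel : ∀ i ≤ L, ∀ t ≤ L, (a i).coeff t = (a' t).coeff i
  s1 : ∃ c : ℕ → ℚ, (∀ i ≤ L, 0 ≤ c i) ∧ (∀ i ≤ L, i ≤ k → 0 < c i) ∧
    ∀ i ≤ L, ∃ ρ : ℚ[X], ρ.natDegree ≤ i ∧ (1 - X) ^ (2 * i) * a i = (1 - X) ^ m * ρ ∧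
      ρ.eval 1 = c i
  s2 : ∀ t ≤ L, ∃ g : ℚ[X], g.natDegree ≤ t - 1 ∧
    (1 + X) ^ (2 * t) * a' t = (1 + X) ^ h * g

theorem ad {n : ℕ} {x : ℕ × ℕ} (h : x ∈ Finset.HasAntidiagonal.antidiagonal n) : x.1 + x.2 = n :=
  Finset.HasAntidiagonal.mem_antidiagonal.1 h

/-- the identity for products -/
theorem cp_id {L : ℕ} {u : ℚ[X]} {m₁ m₂ : ℕ} {a b ρ₁ ρ₂ : ℕ → ℚ[X]} {i : ℕ} (hi : i ≤ L)
    (h1 : ∀ i ≤ L, u ^ (2 * i) * a i = u ^ m₁ * ρ₁ i)
    (h2 : ∀ i ≤ L, u ^ (2 * i) * b i = u ^ m₂ * ρ₂ i) :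
    u ^ (2 * i) * cp a b i = u ^ (m₁ + m₂) * cp ρ₁ ρ₂ i := by
  unfold cp
  rw [Finset.mul_sum, Finset.mul_sum]
  refine Finset.sum_congr rfl fun x hx => ?_
  have hx' := ad hx
  have e1 := h1 x.1 (by omega)
  have e2 := h2 x.2 (by omega)
  calc u ^ (2 * i) * (a x.1 * b x.2) = (u ^ (2 * x.1) * a x.1) * (u ^ (2 * x.2) * b x.2) := by
        rw [← hx']
        ring
    _ = _ := by
        rw [e1, e2]
        ring

theorem Good.mul {L m₁ h₁ k₁ m₂ h₂ k₂ : ℕ} {a a' b b' : ℕ → ℚ[X]} (G : Good L m₁ h₁ k₁ a a')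
    (H : Good L m₂ h₂ k₂ b b') :
    Good L (m₁ + m₂) (h₁ + h₂) (k₁ + k₂) (cp a b) (cp a' b') := by
  refine ⟨?_, ?_, ?_⟩
  · intro i hi t ht
    unfold cp
    rw [Polynomial.finsetSum_coeff, Polynomial.finsetSum_coeff]
    have e1 : ∀ x ∈ Finset.HasAntidiagonal.antidiagonal i, (a x.1 * b x.2).coeff t =
        ∑ y ∈ Finset.HasAntidiagonal.antidiagonal t, (a' y.1).coeff x.1 * (b' y.2).coeff x.2 := by
      intro x hx
      rw [Polynomial.coeff_mul]
      refine Finset.sum_congr rfl fun y hy => ?_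
      have hx' := ad hx
      have hy' := ad hy
      rw [G.rel x.1 (by omega) y.1 (by omega), H.rel x.2 (by omega) y.2 (by omega)]
    have e2 : ∀ y ∈ Finset.HasAntidiagonal.antidiagonal t, (a' y.1 * b' y.2).coeff i =
        ∑ x ∈ Finset.HasAntidiagonal.antidiagonal i, (a' y.1).coeff x.1 * (b' y.2).coeff x.2 :=
      fun y _ => Polynomial.coeff_mul _ _ _
    rw [Finset.sum_congr rfl e1, Finset.sum_congr rfl e2, Finset.sum_comm]
  · obtain ⟨c₁, hc₁, hc₁', hr₁⟩ := G.s1
    obtain ⟨c₂, hc₂, hc₂', hr₂⟩ := H.s1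
    choose! ρ₁ hd₁ he₁ hv₁ using hr₁
    choose! ρ₂ hd₂ he₂ hv₂ using hr₂
    refine ⟨cp c₁ c₂, ?_, ?_, ?_⟩
    · intro i hi
      refine Finset.sum_nonneg fun x hx => ?_
      have hx' := ad hx
      exact mul_nonneg (hc₁ _ (by omega)) (hc₂ _ (by omega))
    · intro i hi hik
      refine Finset.sum_pos' (fun x hx => ?_) ⟨(min i k₁, i - min i k₁), ?_, ?_⟩
      · have hx' := ad hx
        exact mul_nonneg (hc₁ _ (by omega)) (hc₂ _ (by omega))
      · rw [Finset.HasAntidiagonal.mem_antidiagonal]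
        simp only
        omega
      · exact mul_pos (hc₁' _ (by simp only; omega) (by simp only; omega))
          (hc₂' _ (by simp only; omega) (by simp only; omega))
    · intro i hi
      refine ⟨cp ρ₁ ρ₂ i, ?_, cp_id hi he₁ he₂, ?_⟩
      · refine Polynomial.natDegree_sum_le_of_forall_le _ _ fun x hx => ?_
        have hx' := ad hx
        have d1 := hd₁ x.1 (by omega)
        have d2 := hd₂ x.2 (by omega)
        exact (Polynomial.natDegree_mul_le).trans (by omega)
      · unfold cp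
        rw [Polynomial.eval_finsetSum]
        refine Finset.sum_congr rfl fun x hx => ?_
        have hx' := ad hx
        rw [Polynomial.eval_mul, hv₁ x.1 (by omega), hv₂ x.2 (by omega)]
  · have hr₁ := G.s2
    have hr₂ := H.s2
    choose! g₁ hd₁ he₁ using hr₁
    choose! g₂ hd₂ he₂ using hr₂
    intro t ht
    refine ⟨cp g₁ g₂ t, ?_, cp_id ht he₁ he₂⟩
    refine Polynomial.natDegree_sum_le_of_forall_le _ _ fun x hx => ?_
    have hx' := ad hx
    have d1 := hd₁ x.1 (by omega)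
    have d2 := hd₂ x.2 (by omega)
    exact (Polynomial.natDegree_mul_le).trans (by omega)

/-- the unit -/
noncomputable def un (i : ℕ) : ℚ[X] := if i = 0 then 1 else 0

theorem good_un (L : ℕ) : Good L 0 0 0 un un := by
  refine ⟨?_, ⟨fun i => if i = 0 then 1 else 0, ?_, ?_, ?_⟩, ?_⟩
  · intro i _ t _
    unfold un
    by_cases hi : i = 0
    · by_cases ht : t = 0
      · rw [hi, ht]
      · rw [if_pos hi, if_neg ht, Polynomial.coeff_one, if_neg ht, Polynomial.coeff_zero]
    · by_cases ht : t = 0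
      · rw [if_neg hi, if_pos ht, Polynomial.coeff_one, if_neg hi, Polynomial.coeff_zero]
      · rw [if_neg hi, if_neg ht, Polynomial.coeff_zero, Polynomial.coeff_zero]
  · intro i _
    simp only
    split_ifs <;> norm_num
  · intro i _ hi
    have : i = 0 := by omega
    rw [this]
    norm_num
  · intro i _
    refine ⟨un i, ?_, ?_, ?_⟩
    · unfold un
      split_ifs
      · rw [Polynomial.natDegree_one]; omega
      · rw [Polynomial.natDegree_zero]; omega
    · unfold un
      split_ifs with h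
      · rw [h]
      · rw [mul_zero, mul_zero]
    · unfold un
      by_cases h : i = 0
      · simp only [h, if_true, Polynomial.eval_one]
      · simp only [h, if_false, Polynomial.eval_zero]
  · intro t _
    refine ⟨un t, ?_, ?_⟩
    · unfold un
      split_ifs
      · rw [Polynomial.natDegree_one]; omega
      · rw [Polynomial.natDegree_zero]; omega
    · unfold un
      split_ifs with h
      · rw [h]
      · rw [mul_zero, mul_zero]

/-! ## the basic solutions -/

/-- the coefficients, without the sign -/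
def B (m t i : ℕ) : ℕ := (m - i).choose t * (m + 1 - t).choose i

noncomputable def PA (m i : ℕ) : ℚ[X] :=
  ∑ t ∈ Finset.range (m + 2), ((B m t i : ℕ) : ℚ[X]) * (-X) ^ t

noncomputable def PB (m t : ℕ) : ℚ[X] :=
  (-1) ^ t * ∑ i ∈ Finset.range (m + 2), ((B m t i : ℕ) : ℚ[X]) * X ^ i

theorem coeffA (m i t : ℕ) (ht : t < m + 2) : (PA m i).coeff t = (-1) ^ t * (B m t i : ℚ) := by
  unfold PA
  rw [Polynomial.finsetSum_coeff, Finset.sum_eq_single t]
  · rw [neg_pow, ← map_natCast (C : ℚ →+* ℚ[X])]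
    have : (C ((B m t i : ℕ) : ℚ) * ((-1) ^ t * X ^ t) : ℚ[X]) =
        C ((-1) ^ t * ((B m t i : ℕ) : ℚ)) * X ^ t := by
      rw [C_mul, C_pow, C_neg, C_1]
      ring
    rw [this, Polynomial.coeff_C_mul_X_pow, if_pos rfl]
  · intro s _ hs
    rw [neg_pow, ← map_natCast (C : ℚ →+* ℚ[X])]
    have : (C ((B m s i : ℕ) : ℚ) * ((-1) ^ s * X ^ s) : ℚ[X]) =
        C ((-1) ^ s * ((B m s i : ℕ) : ℚ)) * X ^ s := by
      rw [C_mul, C_pow, C_neg, C_1]
      ring
    rw [this, Polynomial.coeff_C_mul_X_pow, if_neg hs.symm]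
  · intro h
    exact absurd (Finset.mem_range.2 ht) h

theorem coeffB (m i t : ℕ) (hi : i < m + 2) : (PB m t).coeff i = (-1) ^ t * (B m t i : ℚ) := by
  unfold PB
  have e : ((-1) ^ t : ℚ[X]) = C ((-1) ^ t) := by
    rw [C_pow, C_neg, C_1]
  rw [e, Polynomial.coeff_C_mul, Polynomial.finsetSum_coeff, Finset.sum_eq_single i]
  · rw [← map_natCast (C : ℚ →+* ℚ[X]), Polynomial.coeff_C_mul_X_pow, if_pos rfl]
  · intro s _ hs
    rw [← map_natCast (C : ℚ →+* ℚ[X]), Polynomial.coeff_C_mul_X_pow, if_neg hs.symm]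
  · intro h
    exact absurd (Finset.mem_range.2 hi) h

theorem degu (k : ℕ) : ((1 - X : ℚ[X]) ^ k).natDegree ≤ k := by
  refine (Polynomial.natDegree_pow_le).trans ?_
  have : (1 - X : ℚ[X]).natDegree ≤ 1 := by compute_degree
  calc k * (1 - X : ℚ[X]).natDegree ≤ k * 1 := Nat.mul_le_mul_left k this
    _ = k := mul_one k

theorem degv (k : ℕ) : ((1 + X : ℚ[X]) ^ k).natDegree ≤ k := by
  refine (Polynomial.natDegree_pow_le).trans ?_
  have : (1 + X : ℚ[X]).natDegree ≤ 1 := by compute_degree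
  calc k * (1 + X : ℚ[X]).natDegree ≤ k * 1 := Nat.mul_le_mul_left k this
    _ = k := mul_one k

theorem degc (c : ℕ) {p : ℚ[X]} {k : ℕ} (h : p.natDegree ≤ k) :
    (((c : ℕ) : ℚ[X]) * p).natDegree ≤ k := by
  refine (Polynomial.natDegree_mul_le).trans ?_
  rw [Polynomial.natDegree_natCast]
  omega

/-- the first structure -/
theorem strA {m i : ℕ} (hi : i ≤ m) : ∃ ρ : ℚ[X], ρ.natDegree ≤ i ∧
    (1 - X) ^ (2 * i) * PA m i = (1 - X) ^ m * ρ ∧ ρ.eval 1 = ((m - i).choose i : ℚ) := by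
  refine ⟨∑ j ∈ Finset.range (i + 1), (((i + 1).choose (j + 1) * (m - i).choose j : ℕ) : ℚ[X]) *
    (1 - X) ^ (i - j), ?_, ?_, ?_⟩
  · refine Polynomial.natDegree_sum_le_of_forall_le _ _ fun j _ => degc _ ?_
    exact (degu _).trans (by omega)
  · have h1 : PA m i = ∑ j ∈ Finset.range (i + 1),
        (((i + 1).choose (j + 1) * (m - i).choose j : ℕ) : ℚ[X]) * (1 - X) ^ (m - i - j) := by
      have := genA (-X : ℚ[X]) (m - i) i (m + 2) (by omega)
      rw [← sub_eq_add_neg] at this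
      rw [← this]
      unfold PA B
      refine Finset.sum_congr rfl fun t _ => ?_
      rw [show m - i + i + 1 - t = m + 1 - t by omega]
    rw [h1, Finset.mul_sum, Finset.mul_sum]
    refine Finset.sum_congr rfl fun j hj => ?_
    have hj' : j ≤ i := by
      have := Finset.mem_range.1 hj
      omega
    rcases Nat.lt_or_ge (m - i) j with h | h
    · rw [Nat.choose_eq_zero_of_lt h, mul_zero, Nat.cast_zero, zero_mul, zero_mul, mul_zero,
        mul_zero]
    · have e1 : (1 - X : ℚ[X]) ^ (2 * i) * ((((i + 1).choose (j + 1) * (m - i).choose j : ℕ) : ℚ[X]) *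
          (1 - X) ^ (m - i - j)) = (((i + 1).choose (j + 1) * (m - i).choose j : ℕ) : ℚ[X]) *
          (1 - X) ^ (2 * i + (m - i - j)) := by
        rw [pow_add]
        ring
      have e2 : (1 - X : ℚ[X]) ^ m * ((((i + 1).choose (j + 1) * (m - i).choose j : ℕ) : ℚ[X]) *
          (1 - X) ^ (i - j)) = (((i + 1).choose (j + 1) * (m - i).choose j : ℕ) : ℚ[X]) *
          (1 - X) ^ (m + (i - j)) := by
        rw [pow_add]
        ring
      rw [e1, e2]
      congr 2
      omega
  · rw [Polynomial.eval_finsetSum, Finset.sum_range_succ, Finset.sum_eq_zero]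
    · rw [zero_add, Nat.sub_self, pow_zero, mul_one, Polynomial.eval_natCast, Nat.choose_self,
        one_mul]
    · intro j hj
      have := Finset.mem_range.1 hj
      rw [Polynomial.eval_mul, Polynomial.eval_pow, Polynomial.eval_sub, Polynomial.eval_one,
        Polynomial.eval_X, sub_self, zero_pow (by omega), mul_zero]

/-- the second structure -/
theorem strB {m t : ℕ} (ht : t ≤ m) : ∃ g : ℚ[X], g.natDegree ≤ t - 1 ∧
    (1 + X) ^ (2 * t) * PB m t = (1 + X) ^ (m + 1) * g := by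
  rcases Nat.eq_zero_or_pos t with h0 | h0
  · subst h0
    refine ⟨1, by simp, ?_⟩
    unfold PB B
    rw [mul_zero, pow_zero, pow_zero, one_mul, one_mul, mul_one, ← bin X (m + 1) (m + 2) (by omega)]
    refine Finset.sum_congr rfl fun i _ => ?_
    rw [Nat.choose_zero_right, one_mul, Nat.sub_zero]
  · obtain ⟨s, rfl⟩ : ∃ s, t = s + 1 := ⟨t - 1, by omega⟩
    have h1 : PB m (s + 1) = (-1) ^ (s + 1) * ∑ j ∈ Finset.range (s + 1),
        ((s.choose j * (m - s).choose (j + 1) : ℕ) : ℚ[X]) * (1 + X) ^ (m - s - (j + 1)) := by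
      rw [← genB (X : ℚ[X]) (m - s) s (m + 2) (by omega)]
      unfold PB B
      congr 1
      refine Finset.sum_congr rfl fun i _ => ?_
      have e : (m - i).choose (s + 1) * (m + 1 - (s + 1)).choose i =
          (m - s).choose i * (m - s + s - i).choose (s + 1) := by
        rw [show m + 1 - (s + 1) = m - s by omega, show m - s + s - i = m - i by omega,
          Nat.mul_comm]
      rw [e]
    refine ⟨(-1) ^ (s + 1) * ∑ j ∈ Finset.range (s + 1),
        ((s.choose j * (m - s).choose (j + 1) : ℕ) : ℚ[X]) * (1 + X) ^ (s - j), ?_, ?_⟩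
    · have e : ((-1) ^ (s + 1) : ℚ[X]) = C ((-1) ^ (s + 1)) := by
        rw [C_pow, C_neg, C_1]
      rw [e]
      refine (Polynomial.natDegree_C_mul_le _ _).trans ?_
      refine Polynomial.natDegree_sum_le_of_forall_le _ _ fun j _ => degc _ ?_
      exact (degv _).trans (by omega)
    · rw [h1, mul_left_comm, mul_left_comm ((1 + X) ^ (m + 1))]
      congr 1
      rw [Finset.mul_sum, Finset.mul_sum]
      refine Finset.sum_congr rfl fun j hj => ?_
      have hj' : j ≤ s := by
        have := Finset.mem_range.1 hj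
        omega
      rcases Nat.lt_or_ge (m - s) (j + 1) with h | h
      · rw [Nat.choose_eq_zero_of_lt h, mul_zero, Nat.cast_zero, zero_mul, zero_mul, mul_zero,
          mul_zero]
      · have e1 : (1 + X : ℚ[X]) ^ (2 * (s + 1)) * (((s.choose j * (m - s).choose (j + 1) : ℕ) : ℚ[X]) *
            (1 + X) ^ (m - s - (j + 1))) = ((s.choose j * (m - s).choose (j + 1) : ℕ) : ℚ[X]) *
            (1 + X) ^ (2 * (s + 1) + (m - s - (j + 1))) := by
          rw [pow_add]
          ring
        have e2 : (1 + X : ℚ[X]) ^ (m + 1) * (((s.choose j * (m - s).choose (j + 1) : ℕ) : ℚ[X]) *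
            (1 + X) ^ (s - j)) = ((s.choose j * (m - s).choose (j + 1) : ℕ) : ℚ[X]) *
            (1 + X) ^ (m + 1 + (s - j)) := by
          rw [pow_add (1 + X) (m + 1)]
          ring
        rw [e1, e2]
        congr 2
        omega

theorem good_P {L m : ℕ} (h : L ≤ m) : Good L m (m + 1) (m / 2) (PA m) (PB m) := by
  refine ⟨?_, ⟨fun i => ((m - i).choose i : ℚ), ?_, ?_, ?_⟩, ?_⟩
  · intro i hi t ht
    rw [coeffA m i t (by omega), coeffB m i t (by omega)]
  · intro i _
    exact Nat.cast_nonneg _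
  · intro i _ hi
    have h9 : 0 < (m - i).choose i := Nat.choose_pos (by omega)
    show (0 : ℚ) < ((m - i).choose i : ℚ)
    exact_mod_cast h9
  · intro i hi
    exact strA (by omega)
  · intro t ht
    exact strB (by omega)

theorem good_all (M x y : ℕ) : ∃ a a' : ℕ → ℚ[X],
    Good M (M * x + (M + 1) * y) ((M + 1) * x + (M + 2) * y) (M / 2 * x + (M + 1) / 2 * y) a a' := by
  induction y with
  | zero =>
    induction x with
    | zero => exact ⟨un, un, good_un M⟩
    | succ x ih =>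
      obtain ⟨a, a', G⟩ := ih
      refine ⟨cp a (PA M), cp a' (PB M), ?_⟩
      have := G.mul (good_P (le_refl M))
      have e1 : M * (x + 1) + (M + 1) * 0 = M * x + (M + 1) * 0 + M := by ring
      have e2 : (M + 1) * (x + 1) + (M + 2) * 0 = (M + 1) * x + (M + 2) * 0 + (M + 1) := by ring
      have e3 : M / 2 * (x + 1) + (M + 1) / 2 * 0 = M / 2 * x + (M + 1) / 2 * 0 + M / 2 := by ring
      rw [e1, e2, e3]
      exact this
  | succ y ih =>
    obtain ⟨a, a', G⟩ := ih
    refine ⟨cp a (PA (M + 1)), cp a' (PB (M + 1)), ?_⟩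
    have := G.mul (good_P (Nat.le_succ M))
    have e1 : M * x + (M + 1) * (y + 1) = M * x + (M + 1) * y + (M + 1) := by ring
    have e2 : (M + 1) * x + (M + 2) * (y + 1) = (M + 1) * x + (M + 2) * y + (M + 1 + 1) := by ring
    have e3 : M / 2 * x + (M + 1) / 2 * (y + 1) = M / 2 * x + (M + 1) / 2 * y + (M + 1) / 2 := by
      ring
    rw [e1, e2, e3]
    exact this

/-- the bound for the order -/
theorem order_le {M a c : ℕ} (hM : 1 ≤ M) (hc : 1 ≤ c) (he : 3 ≤ a + c) :
    M ≤ M / 2 * a + (M + 1) / 2 * c := by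
  obtain ⟨q, hq | hq⟩ : ∃ q, M = 2 * q ∨ M = 2 * q + 1 := ⟨M / 2, by omega⟩
  · have e1 : M / 2 = q := by omega
    have e2 : (M + 1) / 2 = q := by omega
    rw [e1, e2, ← mul_add, hq]
    have := Nat.mul_le_mul_left q he
    omega
  · have e1 : M / 2 = q := by omega
    have e2 : (M + 1) / 2 = q + 1 := by omega
    have e3 : q * a + (q + 1) * c = q * (a + c) + c := by ring
    rw [e1, e2, e3, hq]
    have := Nat.mul_le_mul_left q he
    omega

theorem exists_sol_all {M m h e N : ℕ} (hM : 1 ≤ M) (he : 3 ≤ e) (hh : h = m + e)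
    (hm1 : M * e < m) (hm2 : m ≤ (M + 1) * e) (hN : N ≤ M) : ∃ b : ℕ → ℕ → ℚ,
    (∀ i ≤ N, ∃ r : ℚ[X], r.natDegree ≤ i ∧
      (∀ t ≤ N, b t i = ((1 - X) ^ (m - 2 * i) * r).coeff t) ∧ (i = N → r.eval 1 ≠ 0)) ∧
    (∀ t ≤ N, ∃ g : ℚ[X], g.natDegree ≤ t - 1 ∧
      ∀ i ≤ N, b t i = ((1 + X) ^ (h - 2 * t) * g).coeff i) := by
  have hm2' : m ≤ M * e + e := by
    have : (M + 1) * e = M * e + e := by ring
    omega
  obtain ⟨c, hc⟩ : ∃ c, m = M * e + c := ⟨m - M * e, by omega⟩
  obtain ⟨x, hx⟩ : ∃ x, e = x + c := ⟨e - c, by omega⟩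
  obtain ⟨a, a', G⟩ := good_all M x c
  have e1 : M * x + (M + 1) * c = m := by
    rw [hc, hx]
    ring
  have e2 : (M + 1) * x + (M + 2) * c = h := by
    rw [hh, hc, hx]
    ring
  have e3 : M ≤ M / 2 * x + (M + 1) / 2 * c := order_le hM (by omega) (by omega)
  rw [e1, e2] at G
  have hMe : 3 * M ≤ M * e := by
    have := Nat.mul_le_mul_left M he
    omega
  obtain ⟨c', -, hc', hr⟩ := G.s1
  have hu : (1 - X : ℚ[X]) ≠ 0 := by
    intro h0
    have := congrArg (Polynomial.eval 0) h0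
    simp at this
  have hv : (1 + X : ℚ[X]) ≠ 0 := by
    intro h0
    have := congrArg (Polynomial.eval 0) h0
    simp at this
  refine ⟨fun t i => (a i).coeff t, ?_, ?_⟩
  · intro i hi
    obtain ⟨ρ, h1, h2, h3⟩ := hr i (by omega)
    have h4 : a i = (1 - X) ^ (m - 2 * i) * ρ := by
      apply mul_left_cancel₀ (pow_ne_zero (2 * i) hu)
      rw [h2, ← mul_assoc, ← pow_add]
      congr 2
      omega
    refine ⟨ρ, h1, fun t _ => ?_, fun hiN => ?_⟩
    · show (a i).coeff t = _
      rw [h4]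
    rw [h3]
    exact (hc' i (by omega) (by omega)).ne'
  · intro t ht
    obtain ⟨g, h1, h2⟩ := G.s2 t (by omega)
    have h4 : a' t = (1 + X) ^ (h - 2 * t) * g := by
      apply mul_left_cancel₀ (pow_ne_zero (2 * t) hv)
      rw [h2, ← mul_assoc, ← pow_add]
      congr 2
      omega
    refine ⟨g, h1, fun i hi => ?_⟩
    rw [← h4]
    exact G.rel i (by omega) t (by omega)

/-- AX piece C2G, in the form asked for -/
theorem exists_solG {M m h e N : ℕ} (hM : 1 ≤ M) (_hM9 : M ≤ 9) (he : 3 ≤ e) (hh : h = m + e)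
    (hm1 : M * e < m) (hm2 : m ≤ (M + 1) * e) (hN : N ≤ M) (_hN1 : 1 ≤ N) : ∃ b : ℕ → ℕ → ℚ,
    (∀ i ≤ N, ∃ r : ℚ[X], r.natDegree ≤ i ∧
      (∀ t ≤ N, b t i = ((1 - X) ^ (m - 2 * i) * r).coeff t) ∧ (i = N → r.eval 1 ≠ 0)) ∧
    (∀ t ≤ N, ∃ g : ℚ[X], g.natDegree ≤ t - 1 ∧
      ∀ i ≤ N, b t i = ((1 + X) ^ (h - 2 * t) * g).coeff i) :=
  exists_sol_all hM he hh hm1 hm2 hN

/-- the core, for all `M` -/
theorem core_all {M m h e N : ℕ} (hM : 1 ≤ M) (he : 3 ≤ e) (hh : h = m + e)
    (hm1 : M * e < m) (hm2 : m ≤ (M + 1) * e) (hN : N ≤ M) (b : ℕ → ℕ → ℚ)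
    (h1 : ∀ i ≤ N, ∃ r : Polynomial ℚ, r.natDegree ≤ i ∧
      (∀ t ≤ N, b t i = ((1 - X) ^ (m - 2 * i) * r).coeff t) ∧ (i = N → r.eval 1 = 0))
    (h2 : ∀ t ≤ N, ∃ g : Polynomial ℚ, g.natDegree ≤ t - 1 ∧
      ∀ i ≤ N, b t i = ((1 + X) ^ (h - 2 * t) * g).coeff i) : b 0 0 = 0 := by
  obtain ⟨b', h1', h2'⟩ := exists_sol_all hM he hh hm1 hm2 hN
  exact Pool.Agent.E8helper64.AX.core_of_sol b b' h1 h2 h1' h2'

/-- AX piece C2G, the core in the form asked for -/
theorem coreG {M m h e N : ℕ} (hM : 1 ≤ M) (_hM9 : M ≤ 9) (he : 3 ≤ e) (hh : h = m + e)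
    (hm1 : M * e < m) (hm2 : m ≤ (M + 1) * e) (hN : N ≤ M) (_hN1 : 1 ≤ N) (b : ℕ → ℕ → ℚ)
    (h1 : ∀ i ≤ N, ∃ r : Polynomial ℚ, r.natDegree ≤ i ∧
      (∀ t ≤ N, b t i = ((1 - X) ^ (m - 2 * i) * r).coeff t) ∧ (i = N → r.eval 1 = 0))
    (h2 : ∀ t ≤ N, ∃ g : Polynomial ℚ, g.natDegree ≤ t - 1 ∧
      ∀ i ≤ N, b t i = ((1 + X) ^ (h - 2 * t) * g).coeff i) : b 0 0 = 0 :=
  core_all hM he hh hm1 hm2 hN b h1 h2

end Pool.Agent.E8helper83.AX
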